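import Pool.Agent.X86.OM.Final

set_option autoImplicit false

open Set Filter Topology
open Pool.Agent.X86.OM

namespace Pool.Agent.Results.MP_68e822_an.NotResidual

/-- Negative answer to Q1. For the concave modulus `ω(t) = √t` (for which `ω(t)/t → ∞`) there is a
nonempty open subset `U` of `C^ω[0,1]` and `β < 2` such that every `f ∈ U` has
`dim_A G_f ≤ β`. Hence `{f : dim_A G_f = 2}` is not residual and `{f : dim_A G_f < 2}` is not
meagre in `C^ω[0,1]`. -/
theorem result : ∃ ω : Modulus, (∀ t, ω.toFun t = √t) ∧ ConcaveOn ℝ (Icc 0 1) ω.toFun ∧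
    Tendsto (fun t => ω.toFun t / t) (𝓝[>] 0) atTop ∧
    (∃ U : Set (COmega ω), IsOpen U ∧ U.Nonempty ∧ ∃ β < 2, ∀ f ∈ U, assouadDim (graph f) ≤ β) ∧
    {f : COmega ω | assouadDim (graph f) = 2} ∉ residual (COmega ω) ∧
    ¬ IsMeagre {f : COmega ω | assouadDim (graph f) < 2} := by
  refine ⟨sqrtMod, fun t => rfl, sqrtMod_concave, sqrtMod_div,
    ⟨Metric.ball f0 (1 / 36), Metric.isOpen_ball, ⟨f0, Metric.mem_ball_self (by norm_num)⟩,
      β0, β0_lt, fun f hf => ball_dim f hf⟩, ?_, ?_⟩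
  · intro h
    obtain ⟨g, hg1, hg2⟩ := (dense_of_mem_residual h).inter_open_nonempty
      (Metric.ball f0 (1 / 36)) Metric.isOpen_ball ⟨f0, Metric.mem_ball_self (by norm_num)⟩
    have h1 := ball_dim g hg1
    have h2 := β0_lt
    have h3 : assouadDim (graph g) = 2 := hg2
    linarith
  · intro h
    obtain ⟨g, hg1, hg2⟩ := (dense_of_mem_residual h).inter_open_nonempty
      (Metric.ball f0 (1 / 36)) Metric.isOpen_ball ⟨f0, Metric.mem_ball_self (by norm_num)⟩
    exact hg2 (lt_of_le_of_lt (ball_dim g hg1) β0_lt)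

end Pool.Agent.Results.MP_68e822_an.NotResidual
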